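import Pool.Agent.helper28.Oct.J2
import Pool.Agent.helper68.Oct.J3a
import Pool.Agent.helper52.Oct.J4

set_option autoImplicit false

/-!
# [OCT-J5a] soundness of the elementary tests
-/

open MvPolynomial Set Filter Topology

namespace Oct

/-- the signed table -/
private theorem sizeOK_sgn {B m n : ℕ} {G : List (List ℤ)} {tm um : ℕ} (s : Bool)
    (hs : sizeOK B m n G tm um = true) :
    sizeOK B m n (if s then G else negT G) tm um = true := by
  cases s with
  | true => simpa using hs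
  | false => simpa using (sizeOK_neg B m n G tm um).trans hs

private theorem sgn_evT (G : List (List ℤ)) (s : Bool) (t u : ℝ)
    (h : 1 ≤ evT (if s then G else negT G) t u) : 0 < sg s * evT G t u := by
  cases s with
  | true =>
      simp only [if_true] at h
      simp only [sg, if_true, one_mul]
      linarith
  | false =>
      simp only [Bool.false_eq_true, if_false] at h
      rw [evT_neg] at h
      simp only [sg, Bool.false_eq_true, if_false]
      linarith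

private theorem sizeOK_len {B m n : ℕ} {G : List (List ℤ)} {tm um : ℕ}
    (hs : sizeOK B m n G tm um = true) :
    G.length ≤ n + 1 ∧ (∀ l ∈ G, l.length ≤ m + 1) ∧ 1 ≤ um := by
  unfold sizeOK at hs
  simp only [Bool.and_eq_true, decide_eq_true_eq, List.all_eq_true] at hs
  obtain ⟨⟨⟨⟨⟨h1, h2⟩, _⟩, _⟩, h5⟩, _⟩ := hs
  exact ⟨h1, h2, h5⟩

private theorem abs_nat_add (lo hi um : ℕ) (hlo : lo ≤ um) (hhi : hi ≤ um) :
    |(lo : ℤ)| + |(hi : ℤ)| ≤ 2 * (um : ℤ) := by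
  rw [abs_of_nonneg (Int.natCast_nonneg lo), abs_of_nonneg (Int.natCast_nonneg hi)]
  omega

private theorem box_of_rep {B m n : ℕ} {G : List (List ℤ)} {tm um : ℕ}
    (hs : sizeOK B m n G tm um = true)
    {a b lo hi : ℕ} (ha : a ≤ tm) (hb : b ≤ tm) (hlo : lo ≤ um) (hhi : hi ≤ um) {s : Bool}
    (h : ∃ x : ℕ, ((x : ℤ) ≡ homT (R := ℤ) m n (if s then G else negT G)
        (a + b * 2 ^ (B * (n + 1)))
        (1 + 2 ^ (B * (n + 1))) (lo + hi * 2 ^ B) (1 + 1 * 2 ^ B)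
      - (1 + 2 ^ (B * (n + 1))) ^ m * (1 + 1 * 2 ^ B) ^ n [ZMOD 2 ^ (B * ((m + 1) * (n + 1)))]) ∧
      Nat.land x (mask B ((m + 1) * (n + 1))) = 0) :
    ∀ t ∈ Icc (a : ℝ) b, ∀ u ∈ Icc (lo : ℝ) hi, 0 < sg s * evT G t u := by
  obtain ⟨x, hx, hm⟩ := h
  have hs' := sizeOK_sgn s hs
  obtain ⟨hn, hm', _⟩ := sizeOK_len hs'
  have key := core hs' ha hb (p0 := lo) (p1 := hi) (q0 := 1) (q1 := 1)
    (abs_nat_add lo hi um hlo hhi) (by norm_num) (x := x) (by exact_mod_cast hx) hm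
  have h1 := pos_box hn hm' (a := a) (b := b) (lo := lo) (hi := hi) (by
    intro s w hs0 hw
    have := key s w hs0 hw
    simpa using this)
  intro t ht u hu
  exact sgn_evT G s t u (h1 t ht u hu)

theorem tst_box {B m n : ℕ} {G : List (List ℤ)} {tm um : ℕ} (hs : sizeOK B m n G tm um = true)
    {a b lo hi : ℕ} (ha : a ≤ tm) (hb : b ≤ tm) (hlo : lo ≤ um) (hhi : hi ≤ um) {s : Bool}
    (h : tst (pkOf B m n) (rwOf (pkOf B m n) (vOf (pkOf B m n) G a b)) s
      (ivl (pkOf B m n) lo hi) = true) :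
    ∀ t ∈ Icc (a : ℝ) b, ∀ u ∈ Icc (lo : ℝ) hi, 0 < sg s * evT G t u :=
  box_of_rep hs ha hb hlo hhi (rep_box hs a b lo hi s h)

theorem tst_boxU {B m n : ℕ} {G : List (List ℤ)} {tm um : ℕ} (hs : sizeOK B m n G tm um = true)
    (hs' : sizeOK B m n (dU G) tm um = true)
    {a b lo hi : ℕ} (ha : a ≤ tm) (hb : b ≤ tm) (hlo : lo ≤ um) (hhi : hi ≤ um) {s : Bool}
    (h : tst (pkOf B m n) (rwOf (pkOf B m n) (zipM (vOf (pkOf B m n) G a b).tail (cnt n))) s
      (ivl (pkOf B m n) lo hi) = true) :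
    ∀ t ∈ Icc (a : ℝ) b, ∀ u ∈ Icc (lo : ℝ) hi, 0 < sg s * evT (dU G) t u :=
  box_of_rep hs' ha hb hlo hhi (rep_boxU hs hs' a b lo hi s h)

theorem cap_sound {B m n : ℕ} {G : List (List ℤ)} {tm um : ℕ} (hs : sizeOK B m n G tm um = true)
    {a b L H : ℕ} (ha : a ≤ tm) (hb : b ≤ tm) {s : Bool}
    (h : capA (pkOf B m n) (vOf (pkOf B m n) G a b) um s L H = true) :
    ∀ t ∈ Icc (a : ℝ) b, (∀ u : ℝ, (H : ℝ) ≤ u → 0 < sg s * evT G t u) ∧
      ∀ u : ℝ, u ≤ L → 0 < sg s * evT G t u := by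
  obtain ⟨⟨hH, hL⟩, ⟨x, hx, hxm⟩, ⟨y, hy, hym⟩⟩ := rep_cap hs a b L H s h
  have hs' := sizeOK_sgn s hs
  obtain ⟨hn, hm', hum⟩ := sizeOK_len hs'
  have key1 := core hs' ha hb (p0 := H) (p1 := 1) (q0 := 1) (q1 := 0)
    (by rw [abs_of_nonneg (Int.natCast_nonneg H), abs_one]; omega) (by norm_num) (x := x)
    (by exact_mod_cast hx) hxm
  have key2 := core hs' ha hb (p0 := L) (p1 := -1) (q0 := 1) (q1 := 0)
    (by rw [abs_of_nonneg (Int.natCast_nonneg L), abs_neg, abs_one]; omega) (by norm_num) (x := y)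
    (by exact_mod_cast hy) hym
  have h1 := pos_top hn hm' (a := a) (b := b) (H := H) (by
    intro s w hs0 hw
    have := key1 s w hs0 hw
    simpa using this)
  have h2 := pos_bot hn hm' (a := a) (b := b) (L := L) (by
    intro s w hs0 hw
    have := key2 s w hs0 hw
    simpa [sub_eq_add_neg] using this)
  intro t ht
  exact ⟨fun u hu => sgn_evT G s t u (h1 t ht u hu), fun u hu => sgn_evT G s t u (h2 t ht u hu)⟩

end Oct
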